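import Pool.Agent.Helper68.T3.GoalsT
import Pool.Agent.Helper73.VN.TAYF
import Pool.Agent.Helper65.VN.TAYX
import Pool.Agent.Helper95.VN.TAYN

/-!
# Packet PG-TAYW3 (MP_a41896_nt): the Taylor frame of P3
-/

set_option autoImplicit false

open MvPolynomial

namespace Pool.Agent.Helper35.T3.TAYW3

open WeierstrassCurve Height
open Pool.Agent.Helper29.BL Pool.Agent.Helper92.Ru Pool.Agent.Helper42.SG
open Pool.Agent.Helper65.SG Pool.Agent.Helper68.VN Pool.Agent.Helper68.T3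
open Pool.Agent.Helper62.SGB (plc_mul plc_prod plc_cst plc_Mv plc_one plc_pos le_prod_one)
open Pool.Agent.Helper65.VN.TAYX (BX bP PlC_BX one_le_bP bet_le_bP t_TAYX)

section frame

variable {K : Type} [Field K] {v : AbsoluteValue K ℝ} {A : Type} [CommRing A] [Algebra K A]
  {N : A → ℝ → Prop}

lemma frame_prod (hN : NFr v N) {ι : Type} (s : Finset ι) (P : ι → A) (T : ι → ℝ)
    (h : ∀ i ∈ s, N (P i) (T i)) : N (∏ i ∈ s, P i) (∏ i ∈ s, T i) := by
  classical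
  induction s using Finset.induction_on with
  | empty => simpa using frame_one hN
  | insert a s ha ih =>
    rw [Finset.prod_insert ha, Finset.prod_insert ha]
    exact hN.mul _ _ _ _ (h a (Finset.mem_insert_self a s))
      (ih fun i hi => h i (Finset.mem_insert_of_mem hi))

lemma frame_aeval (hN : NFr v N) {σ : Type} [Fintype σ] [DecidableEq σ] (F : MvPolynomial σ K)
    (D : ℕ) (hD : ∀ i, degreeOf i F ≤ D) (G : ℝ) (hG : ∀ s ∈ F.support, v (coeff s F) ≤ G)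
    (hG0 : 0 ≤ G) (X : σ → A) (a : σ → ℝ) (ha : ∀ i, 1 ≤ a i) (hX : ∀ i, N (X i) (a i)) :
    N (aeval X F) (c2 v ^ F.support.card * (G * ∏ i, a i ^ D)) := by
  have e : aeval X F = ∑ g ∈ F.support, algebraMap K A (coeff g F) * ∏ i, X i ^ g i := by
    rw [aeval_def, eval₂_eq']
  have ha0 : ∀ i, 0 ≤ a i := fun i => zero_le_one.trans (ha i)
  rw [e]
  refine Pool.Agent.Helper73.VN.TAYF.frame_sum hN _ _ _
    (mul_nonneg hG0 (Finset.prod_nonneg fun i _ => pow_nonneg (ha0 i) _)) ?_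
  intro g hg
  refine hN.mono _ _ _ (hN.mul _ _ _ _ (hN.const _) (frame_prod hN Finset.univ
    (fun i => X i ^ g i) (fun i => a i ^ g i) fun i _ => frame_pow hN (hX i) _)) ?_
  refine mul_le_mul (hG g hg) ?_ (Finset.prod_nonneg fun i _ => pow_nonneg (ha0 i) _) hG0
  exact Finset.prod_le_prod (fun i _ => pow_nonneg (ha0 i) _)
    fun i _ => pow_le_pow_right₀ (ha i) (degreeOf_le_iff.1 (hD i) g hg)

end frame

section nums

lemma nums {x y z w t : ℝ} (hx : 1 ≤ x) (hy : 1 ≤ y) (hz : 1 ≤ z) (hw : 1 ≤ w) (ht : 1 ≤ t) :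
    1 ≤ x * y ^ 3 * z ^ 2 * w * t ∧ w ≤ x * y ^ 3 * z ^ 2 * w * t ∧
    x ≤ x * y ^ 3 * z ^ 2 * w * t ∧ y ≤ x * y ^ 3 * z ^ 2 * w * t ∧
    y * z ^ 2 * y ^ 2 ≤ x * y ^ 3 * z ^ 2 * w * t ∧
    x * y ^ 2 * z ^ 2 ≤ x * y ^ 3 * z ^ 2 * w * t ∧
    x * y * t ≤ x * y ^ 3 * z ^ 2 * w * t := by
  have h : ∀ u c : ℝ, 0 ≤ u → 1 ≤ c → u ≤ u * c := fun u c h0 h1 => le_mul_of_one_le_right h0 h1
  have m : ∀ {p q : ℝ}, 1 ≤ p → 1 ≤ q → 1 ≤ p * q :=
    fun hp hq => one_le_mul_of_one_le_of_one_le hp hq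
  have q : ∀ {p : ℝ} (k : ℕ), 1 ≤ p → 1 ≤ p ^ k := fun k hp => one_le_pow₀ hp
  refine ⟨m (m (m (m hx (q 3 hy)) (q 2 hz)) hw) ht, ?_, ?_, ?_, ?_, ?_, ?_⟩
  · have := h w (x * y ^ 3 * z ^ 2 * t) (by linarith) (m (m (m hx (q 3 hy)) (q 2 hz)) ht)
    exact this.trans (le_of_eq (by ring))
  · have := h x (y ^ 3 * z ^ 2 * w * t) (by linarith) (m (m (m (q 3 hy) (q 2 hz)) hw) ht)
    exact this.trans (le_of_eq (by ring))
  · have := h y (x * y ^ 2 * z ^ 2 * w * t) (by linarith)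
      (m (m (m (m hx (q 2 hy)) (q 2 hz)) hw) ht)
    exact this.trans (le_of_eq (by ring))
  · have := h (y * z ^ 2 * y ^ 2) (x * w * t) (by positivity) (m (m hx hw) ht)
    exact this.trans (le_of_eq (by ring))
  · have := h (x * y ^ 2 * z ^ 2) (y * w * t) (by positivity) (m (m hy hw) ht)
    exact this.trans (le_of_eq (by ring))
  · have := h (x * y * t) (y ^ 2 * z ^ 2 * w) (by positivity) (m (m (q 2 hy) (q 2 hz)) hw)
    exact this.trans (le_of_eq (by ring))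

lemma num1 {δ b G P B1 B2 B3 m m' : ℝ} {D0 : ℕ} (hb : B1 * B2 ^ 2 * B3 ^ 2 ≤ b) (hG : 0 < G)
    (hm : 1 ≤ m) (hmP : m ≤ P) (hm' : 1 ≤ m') (hmP' : m' ≤ P) (h1 : 1 ≤ B1) (h2 : 1 ≤ B2)
    (h3 : 1 ≤ B3) :
    B1 * m ^ 3 * (δ ^ 2 / (b * G ^ 2 * P ^ (2 * D0 + 9))) ≤
      δ ^ 2 / ((B2 * G * P ^ D0) ^ 2 * (B3 * m' ^ 3) ^ 2) := by
  have hP : 0 < P := by linarith
  have h0 : 0 < B1 * B2 ^ 2 * B3 ^ 2 := by positivity
  have hb0 : 0 < b := lt_of_lt_of_le h0 hb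
  rw [← mul_div_assoc, div_le_div_iff₀ (by positivity) (by positivity)]
  calc B1 * m ^ 3 * δ ^ 2 * ((B2 * G * P ^ D0) ^ 2 * (B3 * m' ^ 3) ^ 2)
      = δ ^ 2 * ((B1 * B2 ^ 2 * B3 ^ 2) * G ^ 2 * (P ^ (2 * D0) * (m ^ 3 * m' ^ 6))) := by ring
    _ ≤ δ ^ 2 * (b * G ^ 2 * (P ^ (2 * D0) * (P ^ 3 * P ^ 6))) := by gcongr
    _ = δ ^ 2 * (b * G ^ 2 * P ^ (2 * D0 + 9)) := by ring

lemma num2 {δ Γ S B m : ℝ} (hδ : δ ≤ S * Γ) (hB : B * m ^ 2 ≤ S) (hΓ : 0 < Γ)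
    (hBm : 0 < B * m ^ 2) : δ / (Γ * S ^ 2) ≤ 1 / (B * m ^ 2) := by
  have hS : 0 < S := lt_of_lt_of_le hBm hB
  rw [div_le_div_iff₀ (by positivity) hBm]
  calc δ * (B * m ^ 2) ≤ (S * Γ) * (B * m ^ 2) := mul_le_mul_of_nonneg_right hδ hBm.le
    _ ≤ (S * Γ) * S := mul_le_mul_of_nonneg_left hB (by positivity)
    _ = 1 * (Γ * S ^ 2) := by ring

lemma num3 {δ b G P Bx B2 B3 m m' : ℝ} {D0 : ℕ} (hb : Bx * B3 ^ 2 * B2 ^ 2 ≤ b) (hG : 0 < G)
    (hδ0 : 0 ≤ δ) (hδ : δ ≤ B3 * m' ^ 3 * (B2 * G * P ^ D0))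
    (hm : 1 ≤ m) (hmP : m ≤ P) (hm' : 1 ≤ m') (hmP' : m' ≤ P) (h1 : 1 ≤ Bx) (h2 : 1 ≤ B2)
    (h3 : 1 ≤ B3) :
    δ ^ 2 / (b * G ^ 2 * P ^ (2 * D0 + 9)) ≤ 1 / (Bx * m ^ 2) := by
  have hP1 : 1 ≤ P := hm.trans hmP
  have hP : 0 < P := by linarith
  have h0 : 0 < Bx * B3 ^ 2 * B2 ^ 2 := by positivity
  have hb0 : 0 < b := lt_of_lt_of_le h0 hb
  rw [div_le_div_iff₀ (by positivity) (by positivity)]
  calc δ ^ 2 * (Bx * m ^ 2) ≤ (B3 * m' ^ 3 * (B2 * G * P ^ D0)) ^ 2 * (Bx * m ^ 2) := by gcongr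
    _ = (Bx * B3 ^ 2 * B2 ^ 2) * G ^ 2 * (P ^ (2 * D0) * (m' ^ 6 * m ^ 2)) := by ring
    _ ≤ b * G ^ 2 * (P ^ (2 * D0) * (P ^ 6 * P ^ 2)) := by gcongr
    _ = b * G ^ 2 * P ^ (2 * D0 + 8) := by ring
    _ ≤ b * G ^ 2 * P ^ (2 * D0 + 9) := by
        have := pow_le_pow_right₀ hP1 (show 2 * D0 + 8 ≤ 2 * D0 + 9 by omega)
        gcongr
    _ = 1 * (b * G ^ 2 * P ^ (2 * D0 + 9)) := by ring

end nums

section gs

variable {K : Type} [Field K] {σ : Type}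

lemma gsup_pos (v : AbsoluteValue K ℝ) {g : MvPolynomial σ K} (hg : g ≠ 0) : 0 < gsup v g := by
  obtain ⟨s, hs⟩ := MvPolynomial.support_nonempty.mpr hg
  unfold gsup
  have h1 : v (coeff s g) ≤ ⨆ s : g.support, v (coeff s.1 g) :=
    le_ciSup (f := fun s : g.support => v (coeff s.1 g)) (Set.finite_range _).bddAbove ⟨s, hs⟩
  exact lt_of_lt_of_le (v.pos (MvPolynomial.mem_support_iff.1 hs)) h1

end gs

theorem t_TAYW3 (hP : TAYP) (hF : TAYF3) (hI : IFT) : Pool.Agent.Helper68.T3.TAYW3 := by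
  classical
  intro K _ _ σ _ _ _ W J _ D f D0 hD hdeg
  obtain ⟨Bx, pBx, hX⟩ := t_TAYX K σ W
  choose BP pBP hBP using fun i => hP K (W i)
  obtain ⟨B2, pB2, hI2⟩ := hI K σ D0
  obtain ⟨BF, pBF, -, hBF⟩ := hF K σ W J D f hdeg (fun _ => 1) plc_one
  -- constants
  obtain ⟨n0, hn0⟩ : ∃ n0 : ℕ, n0 = ∑ k, (f k).support.card := ⟨_, rfl⟩
  obtain ⟨Gc, hGc⟩ : ∃ Gc : AbsoluteValue K ℝ → ℝ, ∀ v, Gc v =
    ∏ k, ∏ g ∈ (f k).support, Mv v (coeff g (f k)) := ⟨_, fun _ => rfl⟩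
  have hcst : PlC (K := K) fun v => c2 v := plc_cst (by norm_num)
  have hpow : ∀ (B : AbsoluteValue K ℝ → ℝ), PlC B → ∀ m : ℕ, PlC (K := K) fun v => B v ^ m := by
    intro B hB m
    have := plc_prod (K := K) (Finset.range m) (fun _ v => B v) (fun _ _ => hB)
    simpa using this
  have pGc : PlC Gc := by
    have := plc_prod (K := K) Finset.univ (fun k v => ∏ g ∈ (f k).support, Mv v (coeff g (f k)))
      (fun k _ => plc_prod _ _ fun g _ => plc_Mv _)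
    have e : Gc = fun v => ∏ k, ∏ g ∈ (f k).support, Mv v (coeff g (f k)) := funext hGc
    rw [e]; exact this
  obtain ⟨Bf', hBf'⟩ : ∃ Bf' : AbsoluteValue K ℝ → ℝ, ∀ v, Bf' v = c2 v ^ n0 * Gc v :=
    ⟨_, fun _ => rfl⟩
  have pBf' : PlC Bf' := by
    have e : Bf' = fun v => c2 v ^ n0 * Gc v := funext hBf'
    rw [e]; exact plc_mul (hpow _ hcst n0) pGc
  obtain ⟨B3, hB3⟩ : ∃ B3 : AbsoluteValue K ℝ → ℝ, ∀ v, B3 v = BX W v * ∏ i, BP i v :=
    ⟨_, fun _ => rfl⟩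
  have pB3 : PlC B3 := by
    have e : B3 = fun v => BX W v * ∏ i, BP i v := funext hB3
    rw [e]; exact plc_mul (PlC_BX W) (plc_prod _ _ fun i _ => pBP i)
  refine ⟨fun v => Bx v * B3 v ^ 3 * B2 v ^ 2 * BF v * Bf' v,
    plc_mul (plc_mul (plc_mul (plc_mul pBx (hpow _ pB3 3)) (hpow _ pB2 2)) pBF) pBf', ?_⟩
  intro ξ ψ g i' hψ hk hg0 hg1 hg2
  obtain ⟨X, Ψ, hT, hXN⟩ := hX 2 ξ ψ hψ
  obtain ⟨κ, hκ⟩ : ∃ κ : K, κ = 4 * ψ 1 i' ^ 2 := ⟨_, rfl⟩
  have hκ0 : κ ≠ 0 := by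
    rw [hκ]
    exact mul_ne_zero (by norm_num) (pow_ne_zero _ (hψ 1 i').2)
  obtain ⟨y, hy0, hyg, hyδ, hyN⟩ := hI2 (Fin 2 × σ) g (ξ 1) i' κ
    (fun i => MvPowerSeries.C (4 * ψ 1 i ^ 2) * MvPowerSeries.X (1, i)) hg0 hg1
    (mul_ne_zero hκ0 hg2) (fun i => by simp)
  obtain ⟨P, hP1, hP2, hP3⟩ := hBP i' (Fin 2 × σ) (ξ 1 i') (ψ 1 i') y (hψ 1 i').1 hy0
  rw [← hκ] at hP1 hP3
  obtain ⟨X', hX'⟩ : ∃ X' : Fin 2 → σ → MvPowerSeries (Fin 2 × σ) K, ∀ j i, X' j i =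
      if j = 1 ∧ i = i' then MvPowerSeries.C (ξ 1 i') + MvPowerSeries.C κ * y else X j i :=
    ⟨_, fun _ _ => rfl⟩
  obtain ⟨Ψ', hΨ'⟩ : ∃ Ψ' : Fin 2 → σ → MvPowerSeries (Fin 2 × σ) K, ∀ j i, Ψ' j i =
      if j = 1 ∧ i = i' then P else Ψ j i := ⟨_, fun _ _ => rfl⟩
  have hX0 : X' 0 = X 0 := by
    funext i
    rw [hX', if_neg (by simp)]
  refine ⟨X', Ψ', ?_, ?_⟩
  · refine { on := ?_, cX := ?_, cst := ?_, eqX := ?_, rel := ?_ }
    · intro j i
      rw [hX', hΨ']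
      by_cases h : j = 1 ∧ i = i'
      · rw [if_pos h, if_pos h, h.2]
        exact hP1
      · rw [if_neg h, if_neg h]
        exact hT.on j i
    · intro j i
      rw [hX']
      by_cases h : j = 1 ∧ i = i'
      · rw [if_pos h, h.1, h.2, map_add, map_mul, hy0]
        simp
      · rw [if_neg h, hT.eqX]
        simp
    · intro j i
      rw [hΨ']
      by_cases h : j = 1 ∧ i = i'
      · rw [if_pos h, h.1, h.2]
        exact hP2
      · rw [if_neg h]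
        exact hT.cst j i
    · intro j i hji
      rw [hX', if_neg (by rintro ⟨h1, h2⟩; exact hji (by rw [h1, h2]))]
      exact hT.eqX j i
    · have e : X' 1 = fun i => MvPowerSeries.C (ξ 1 i) + if i = i' then MvPowerSeries.C κ * y
          else MvPowerSeries.C (4 * ψ 1 i ^ 2) * MvPowerSeries.X (1, i) := by
        funext i
        rw [hX']
        by_cases h : i = i'
        · rw [if_pos ⟨rfl, h⟩, if_pos h, h]
        · rw [if_neg (fun hh => h hh.2), if_neg h, hT.eqX]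
      rw [e]
      exact hyg
  · intro v
    obtain ⟨b, hb⟩ : ∃ b : ℝ, b = Bx v * B3 v ^ 3 * B2 v ^ 2 * BF v * Bf' v := ⟨_, rfl⟩
    have hx1 := pBx.one_le v
    have h31 := pB3.one_le v
    have h21 := pB2.one_le v
    have hF1 := pBF.one_le v
    have hf1 := pBf'.one_le v
    have hBX1 := (PlC_BX W).one_le v
    have hBPp : ∀ i, BP i v ≤ ∏ i, BP i v := fun i =>
      le_prod_one Finset.univ (fun i => BP i v) (fun i _ => (pBP i).one_le v) (Finset.mem_univ i)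
    have hPr1 : 1 ≤ ∏ i, BP i v := ((pBP i').one_le v).trans (hBPp i')
    have hBX3 : BX W v ≤ B3 v := by
      rw [hB3]; exact le_mul_of_one_le_right (by linarith) hPr1
    have hBP3 : ∀ i, BP i v ≤ B3 v := fun i => by
      rw [hB3]; exact (hBPp i).trans (le_mul_of_one_le_left (by linarith) hBX1)
    obtain ⟨n1, n2, n3, n4, n5, n6, n7⟩ := nums hx1 h31 h21 hF1 hf1
    rw [← hb] at n1 n2 n3 n4 n5 n6 n7
    have hb0 : 0 < b := by linarith
    -- the point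
    have hM1 : ∀ j i, 1 ≤ Mv v (ξ j i) := fun j i => one_le_Mv v _
    have hM0 : ∀ j i, 0 < Mv v (ξ j i) := fun j i => Mv_pos v _
    obtain ⟨Pm, hPm⟩ : ∃ Pm : ℝ, Pm = ∏ i, Mv v (ξ 1 i) := ⟨_, rfl⟩
    have hMP : ∀ i, Mv v (ξ 1 i) ≤ Pm := fun i => by
      rw [hPm]
      exact le_prod_one Finset.univ (fun i => Mv v (ξ 1 i)) (fun i _ => hM1 1 i)
        (Finset.mem_univ i)
    have hPm1 : 1 ≤ Pm := (hM1 1 i').trans (hMP i')
    have hPm0 : 0 < Pm := by linarith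
    have hgne : g ≠ 0 := by
      intro h
      rw [h] at hg2
      simp at hg2
    have hG := gsup_pos v hgne
    obtain ⟨G, hGd⟩ : ∃ G : ℝ, G = gsup v g := ⟨_, rfl⟩
    rw [← hGd] at hG
    have hdl : dlt g i' (ξ 1) (ψ 1) = κ * eval (ξ 1) (pderiv i' g) := by
      unfold dlt
      rw [hκ]
    obtain ⟨δ, hδ⟩ : ∃ δ : ℝ, δ = v (κ * eval (ξ 1) (pderiv i' g)) := ⟨_, rfl⟩
    have hδ0 : 0 < δ := by
      rw [hδ]; exact v.pos (mul_ne_zero hκ0 hg2)
    obtain ⟨Γ, hΓ⟩ : ∃ Γ : ℝ, Γ = B2 v * G * Pm ^ D0 := ⟨_, rfl⟩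
    have hΓ0 : 0 < Γ := by rw [hΓ]; positivity
    have hδ1 := hyδ v
    rw [← hδ, ← hGd, ← hPm, ← hΓ] at hδ1
    have h4ψ : ∀ i, v (4 * ψ 1 i ^ 2) ≤ BX W v * Mv v (ξ 1 i) ^ 3 := by
      intro i
      obtain ⟨-, -, -, hq, -⟩ := tay_est (W i) v (bP W v) (bet_le_bP W v i) (ξ 1 i) (ψ 1 i)
        (hψ 1 i).1
      refine hq.trans (mul_le_mul_of_nonneg_right ?_ (pow_pos (hM0 1 i) 3).le)
      have := pow_le_pow_right₀ (one_le_c2 v) (show 6 ≤ 10 by norm_num)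
      exact mul_le_mul_of_nonneg_right this (by have := one_le_bP W v; linarith)
    obtain ⟨S, hS⟩ : ∃ S : ℝ, S = B3 v * Mv v (ξ 1 i') ^ 3 := ⟨_, rfl⟩
    have hS1 : 1 ≤ S := by
      rw [hS]; exact one_le_mul_of_one_le_of_one_le h31 (one_le_pow₀ (hM1 1 i'))
    have hκS : v κ ≤ S := by
      rw [hκ, hS]
      exact (h4ψ i').trans (mul_le_mul_of_nonneg_right hBX3 (pow_pos (hM0 1 i') 3).le)
    have hδS : δ ≤ S * Γ := hδ1.trans (mul_le_mul_of_nonneg_right hκS hΓ0.le)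
    -- the radii
    obtain ⟨hρ0, hρ1⟩ := Pool.Agent.Helper95.VN.rho_pos_le D f v (ξ 0) hk
    obtain ⟨r, hr⟩ : ∃ r : Fin 2 × σ → ℝ, r = rad3 D f (2 * D0 + 9) g i' b v ξ ψ := ⟨_, rfl⟩
    have hr0 : ∀ i, r (0, i) = rho D f v (ξ 0) / (b * Mv v (ξ 0 i) ^ 2) := by
      intro i
      rw [hr]
      unfold rad3
      rw [if_pos rfl]
    have hr1 : ∀ i, r (1, i) = δ ^ 2 / (b * G ^ 2 * Pm ^ (2 * D0 + 9)) := by
      intro i
      rw [hr]
      unfold rad3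
      rw [if_neg (by simp), hdl, ← hδ, ← hGd, ← hPm]
    have hcase : ∀ j : Fin 2, j = 0 ∨ j = 1 := by
      intro j
      fin_cases j
      · left; rfl
      · right; rfl
    have hrpos : ∀ h, 0 < r h := by
      rintro ⟨j, i⟩
      rcases hcase j with rfl | rfl
      · rw [hr0]
        have := hM0 0 i
        positivity
      · rw [hr1]
        positivity
    have hrX : ∀ h : Fin 2 × σ, r h ≤ 1 / (Bx v * Mv v (ξ h.1 h.2) ^ 2) := by
      rintro ⟨j, i⟩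
      rcases hcase j with rfl | rfl
      · rw [hr0]
        have hM2 : 0 < Mv v (ξ 0 i) ^ 2 := pow_pos (hM0 0 i) 2
        exact div_le_div₀ zero_le_one hρ1 (mul_pos (by linarith) hM2)
          (mul_le_mul_of_nonneg_right n3 hM2.le)
      · rw [hr1]
        refine num3 (m' := Mv v (ξ 1 i')) (B2 := B2 v) (B3 := B3 v) n6 hG hδ0.le ?_ (hM1 1 i)
          (hMP i) (hM1 1 i') (hMP i') hx1 h21 h31
        rw [← hS, ← hΓ]
        exact hδS
    have NF : NFr v (NPS (K := K) v r) := nfr_nps v hrpos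
    have alg : ∀ c : K, (MvPowerSeries.C c : MvPowerSeries (Fin 2 × σ) K) =
        algebraMap K (MvPowerSeries (Fin 2 × σ) K) c := by
      intro c
      rw [MvPowerSeries.algebraMap_apply]
      rfl
    -- the implicit function
    have hyn : NPS v r y (δ / (Γ * S ^ 2)) := by
      have h := hyN v r S hrpos hS1 hκS (by
        intro i _
        rw [← hδ, ← hGd, ← hPm, ← hΓ]
        have h1 := NF.mul _ _ _ _ (NF.const (4 * ψ 1 i ^ 2)) (nps_X hrpos ((1 : Fin 2), i))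
        rw [← alg] at h1
        refine NF.mono _ _ _ h1 ?_
        rw [hr1, hΓ, hS]
        have h2 : 0 ≤ δ ^ 2 / (b * G ^ 2 * Pm ^ (2 * D0 + 9)) := by positivity
        refine (mul_le_mul_of_nonneg_right (h4ψ i) h2).trans ?_
        refine num1 ?_ hG (hM1 1 i) (hMP i) (hM1 1 i') (hMP i') hBX1 h21 h31
        refine le_trans ?_ n5
        have : 0 ≤ B2 v ^ 2 * B3 v ^ 2 := by positivity
        calc BX W v * B2 v ^ 2 * B3 v ^ 2 = BX W v * (B2 v ^ 2 * B3 v ^ 2) := by ring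
          _ ≤ B3 v * (B2 v ^ 2 * B3 v ^ 2) := mul_le_mul_of_nonneg_right hBX3 this
          _ = _ := by ring)
      rw [← hδ, ← hGd, ← hPm, ← hΓ] at h
      exact h
    have hBPM : BP i' v * Mv v (ξ 1 i') ^ 2 ≤ S := by
      rw [hS]
      have h1 : 0 < BP i' v := plc_pos (pBP i') v
      have h2 := pow_le_pow_right₀ (hM1 1 i') (show 2 ≤ 3 by norm_num)
      exact mul_le_mul (hBP3 i') h2 (pow_pos (hM0 1 i') 2).le (by linarith)
    have hBPM0 : 0 < BP i' v * Mv v (ξ 1 i') ^ 2 :=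
      mul_pos (plc_pos (pBP i') v) (pow_pos (hM0 1 i') 2)
    obtain ⟨q1, q2⟩ := hP3 v r hrpos (NF.mono _ _ _ hyn (num2 hδS hBPM hΓ0 hBPM0))
    have hnew : ∀ j i, NPS v r (X' j i) (Bx v * B3 v * Mv v (ξ j i)) ∧
        NPS v r (Ψ' j i) (b * Mv v (ξ j i) ^ 2) := by
      intro j i
      rw [hX', hΨ']
      have hx3 : Bx v ≤ Bx v * B3 v := le_mul_of_one_le_right (by linarith) h31
      have h3x : B3 v ≤ Bx v * B3 v := le_mul_of_one_le_left (by linarith) hx1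
      by_cases h : j = 1 ∧ i = i'
      · rw [if_pos h, if_pos h, h.1, h.2]
        refine ⟨NF.mono _ _ _ q1 ?_, NF.mono _ _ _ q2 ?_⟩
        · exact mul_le_mul_of_nonneg_right ((hBP3 i').trans h3x) (hM0 1 i').le
        · exact mul_le_mul_of_nonneg_right ((hBP3 i').trans n4) (pow_pos (hM0 1 i') 2).le
      · rw [if_neg h, if_neg h]
        obtain ⟨h1, h2⟩ := hXN v r (fun h => ⟨hrpos h, hrX h⟩) j i
        refine ⟨NF.mono _ _ _ h1 ?_, NF.mono _ _ _ h2 ?_⟩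
        · exact mul_le_mul_of_nonneg_right hx3 (hM0 j i).le
        · exact mul_le_mul_of_nonneg_right n3 (pow_pos (hM0 j i) 2).le
    have hx3b : Bx v * B3 v ≤ b := by
      refine le_trans ?_ n7
      exact le_mul_of_one_le_right (by positivity) hf1
    beta_reduce
    rw [← hb, ← hr]
    refine ⟨⟨hρ0, hρ1⟩, hrpos, ?_, ?_, ?_⟩
    · intro j i
      obtain ⟨h1, h2⟩ := hnew j i
      exact ⟨NF.mono _ _ _ h1 (mul_le_mul_of_nonneg_right hx3b (hM0 j i).le), h2⟩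
    · intro k
      rw [hX0]
      have h1 := hBF (Fin 2 × σ) (fun i => (0, i)) (ξ 0) (ψ 0) (X 0) (fun i => hT.eqX 0 i)
        (fun i => (hψ 0 i).1) hk v r hrpos (fun i => by
          rw [hr0]
          have hM2 : 0 < Mv v (ξ 0 i) ^ 2 := pow_pos (hM0 0 i) 2
          exact div_le_div_of_nonneg_left hρ0.le (mul_pos (by linarith) hM2)
            (mul_le_mul_of_nonneg_right n2 hM2.le)) k
      refine NF.mono _ _ _ h1 (mul_le_mul_of_nonneg_left ?_ hρ0.le)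
      rw [Finset.prod_pow, Finset.prod_mul_distrib, mul_pow]
      refine mul_le_mul_of_nonneg_right ?_
        (pow_nonneg (Finset.prod_nonneg fun i _ => (hM0 0 i).le) _)
      rw [Finset.prod_const, ← pow_mul, Finset.card_univ]
      exact n2.trans (le_self_pow₀ n1 (Nat.mul_ne_zero Fintype.card_ne_zero (by omega)))
    · intro k
      have h1 : NPS v r (aeval (X' 1) (f k)) (c2 v ^ (f k).support.card *
          (Gc v * ∏ i, (Bx v * B3 v * Mv v (ξ 1 i)) ^ D)) := by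
        refine frame_aeval NF (f k) D (hdeg k) (Gc v) ?_ (by have := pGc.one_le v; linarith)
          (X' 1) (fun i => Bx v * B3 v * Mv v (ξ 1 i)) ?_ (fun i => (hnew 1 i).1)
        · intro s hs
          rw [hGc]
          have h4 : Mv v (coeff s (f k)) ≤ ∏ g ∈ (f k).support, Mv v (coeff g (f k)) :=
            le_prod_one _ (fun g => Mv v (coeff g (f k))) (fun g _ => one_le_Mv v _) hs
          have h5 : ∏ g ∈ (f k).support, Mv v (coeff g (f k)) ≤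
              ∏ k, ∏ g ∈ (f k).support, Mv v (coeff g (f k)) :=
            le_prod_one Finset.univ (fun k => ∏ g ∈ (f k).support, Mv v (coeff g (f k)))
              (fun k _ => by
                calc (1 : ℝ) = ∏ _g ∈ (f k).support, 1 := by simp
                  _ ≤ _ := Finset.prod_le_prod (fun _ _ => zero_le_one)
                    fun i _ => one_le_Mv v _) (Finset.mem_univ k)
          exact (le_max_right _ _).trans (h4.trans h5)
        · intro i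
          exact one_le_mul_of_one_le_of_one_le (one_le_mul_of_one_le_of_one_le hx1 h31) (hM1 1 i)
      refine NF.mono _ _ _ h1 ?_
      have hsc : (f k).support.card ≤ n0 := by
        rw [hn0]
        exact Finset.single_le_sum (f := fun k => (f k).support.card) (fun _ _ => Nat.zero_le _)
          (Finset.mem_univ k)
      have hQ : 0 ≤ ∏ i, (Bx v * B3 v * Mv v (ξ 1 i)) ^ D :=
        Finset.prod_nonneg fun i _ => by have := hM0 1 i; positivity
      have hGc1 := pGc.one_le v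
      calc c2 v ^ (f k).support.card * (Gc v * ∏ i, (Bx v * B3 v * Mv v (ξ 1 i)) ^ D)
          = (c2 v ^ (f k).support.card * Gc v) * ∏ i, (Bx v * B3 v * Mv v (ξ 1 i)) ^ D := by ring
        _ ≤ Bf' v * ∏ i, (Bx v * B3 v * Mv v (ξ 1 i)) ^ D := by
            refine mul_le_mul_of_nonneg_right ?_ hQ
            rw [hBf']
            exact mul_le_mul_of_nonneg_right (pow_le_pow_right₀ (one_le_c2 v) hsc) (by linarith)
        _ ≤ (Bf' v ^ (Fintype.card σ * D)) * ∏ i, (Bx v * B3 v * Mv v (ξ 1 i)) ^ D := by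
            refine mul_le_mul_of_nonneg_right ?_ hQ
            exact le_self_pow₀ hf1 (Nat.mul_ne_zero Fintype.card_ne_zero (by omega))
        _ = ∏ i, (Bx v * B3 v * Bf' v * Mv v (ξ 1 i)) ^ D := by
            rw [pow_mul, ← Finset.card_univ, ← Finset.prod_const, Finset.prod_pow,
              Finset.prod_pow, ← mul_pow, ← Finset.prod_mul_distrib]
            congr 1
            refine Finset.prod_congr rfl fun i _ => ?_
            ring
        _ ≤ ∏ i, (b * Mv v (ξ 1 i)) ^ D := by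
            refine Finset.prod_le_prod (fun i _ => ?_) fun i _ => ?_
            · have := hM0 1 i
              positivity
            · have := hM0 1 i
              refine pow_le_pow_left₀ (by positivity) ?_ D
              exact mul_le_mul_of_nonneg_right n7 this.le

end Pool.Agent.Helper35.T3.TAYW3
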